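import Mathlib
import Pool.Agent.H665R3.BallsLift

/-!
# Points in three-space with respect to balls: no finite number of colours suffices

For all `c` and `m` there is a finite point set in `ℝ³` such that every `c`-colouring of it
leaves some ball which contains at least `m` of the points, all of one colour. Moreover no point
of the set lies on the boundary sphere of that ball, so that the statement holds for closed and
for open balls alike.
-/

set_option autoImplicit false

namespace Pool.Agent.Results.MP_3d878b_co.ChiBigInfinite

/-- For every number `c` of colours and every `m` there is a finite set `P` of points of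
Euclidean three-space such that for every colouring with `c` colours there is a ball (centre `z`,
radius `r > 0`) with no point of `P` on its boundary, containing at least `m` points of `P`, and
such that all points of `P` in the ball have the same colour. -/
theorem result (c m : ℕ) : ∃ P : Finset (EuclideanSpace ℝ (Fin 3)),
    ∀ col : EuclideanSpace ℝ (Fin 3) → Fin c,
      ∃ (z : EuclideanSpace ℝ (Fin 3)) (r : ℝ), 0 < r ∧
        (∀ p ∈ P, dist p z ≠ r) ∧
        m ≤ {p : EuclideanSpace ℝ (Fin 3) | p ∈ P ∧ dist p z ≤ r}.ncard ∧
        ∃ k : Fin c, ∀ p ∈ P, dist p z ≤ r → col p = k :=
  Pool.Agent.H665R3.Balls.main c m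

end Pool.Agent.Results.MP_3d878b_co.ChiBigInfinite
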